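import Mathlib

namespace Pool.Agent.Results.MP_d21a88_gt.Euler

/-- the ellipse `a X² + 2 b X Y + c Y² = 1`, `(X, Y) = P - O`, for a positive definite form -/
structure Ellipse where
  O : ℝ × ℝ
  a : ℝ
  b : ℝ
  c : ℝ
  ha : 0 < a
  hd : b ^ 2 < a * c

/-- the ellipse is `Q = 1`, its interior is `Q < 1` -/
def Ellipse.Q (E : Ellipse) (P : ℝ × ℝ) : ℝ :=
  E.a * (P.1 - E.O.1) ^ 2 + 2 * E.b * (P.1 - E.O.1) * (P.2 - E.O.2) + E.c * (P.2 - E.O.2) ^ 2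

/-- `v` is the direction of an axis: a nonzero eigenvector of the form -/
def Ellipse.Axis (E : Ellipse) (v : ℝ × ℝ) : Prop :=
  v ≠ 0 ∧ ∃ μ : ℝ, E.a * v.1 + E.b * v.2 = μ * v.1 ∧ E.b * v.1 + E.c * v.2 = μ * v.2

/-- the side `AB` touches `E`: the line `AB` meets `E` in exactly one point, which lies on the side -/
def Ellipse.Tangent (E : Ellipse) (A B : ℝ × ℝ) : Prop :=
  A ≠ B ∧ ∃ t ∈ Set.Icc (0 : ℝ) 1, ∀ s : ℝ, E.Q (A + s • (B - A)) = 1 ↔ s = t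

/-- `ABC` has its vertices on `E` and its sides tangent to `F` -/
def Poncelet (E F : Ellipse) (A B C : ℝ × ℝ) : Prop :=
  E.Q A = 1 ∧ E.Q B = 1 ∧ E.Q C = 1 ∧ F.Tangent A B ∧ F.Tangent B C ∧ F.Tangent C A

/-- squared Euclidean distance -/
def d2 (P O : ℝ × ℝ) : ℝ := (P.1 - O.1) ^ 2 + (P.2 - O.2) ^ 2

/-- the circle with centre `N` and radius `r` passes through the midpoints of the sides of `ABC` -/
def EulerCircle (A B C N : ℝ × ℝ) (r : ℝ) : Prop :=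
  0 < r ∧ d2 ((1 / 2 : ℝ) • (A + B)) N = r ^ 2 ∧ d2 ((1 / 2 : ℝ) • (B + C)) N = r ^ 2 ∧
    d2 ((1 / 2 : ℝ) • (C + A)) N = r ^ 2

noncomputable def E : Ellipse :=
  ⟨(0, 0), 1 / 44944, -19 / 5348336, 2665 / 37438352, by norm_num, by norm_num⟩

noncomputable def F : Ellipse :=
  ⟨(-1272 / 17, 0), 289 / 1617984, -323 / 11325888, 1648669 / 6738903360, by norm_num, by norm_num⟩

lemma tang {A B : ℝ × ℝ} (q t : ℝ) (hq : q ≠ 0) (h0 : 0 ≤ t) (h1 : t ≤ 1) (hAB : A.1 ≠ B.1)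
    (h : ∀ s, F.Q (A + s • (B - A)) = 1 + q * (s - t) ^ 2) : F.Tangent A B :=
  ⟨fun e => hAB (by rw [e]), t, ⟨h0, h1⟩, fun s => by rw [h]; simp [hq, sub_eq_zero]⟩

lemma p1 : Poncelet E F (-212, 0) (-19, -119) (19, 119) := by
  refine ⟨?_, ?_, ?_, tang (2057 / 180) (5 / 11) ?_ ?_ ?_ ?_ fun s => ?_,
    tang (68 / 5) (1 / 2) ?_ ?_ ?_ ?_ fun s => ?_,
    tang (2057 / 180) (6 / 11) ?_ ?_ ?_ ?_ fun s => ?_⟩ <;> norm_num [Ellipse.Q, E, F] <;> ring

lemma p2 : Poncelet E F (-181, -357 / 5) (-112, 476 / 5) (2449 / 13, -595 / 13) := by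
  refine ⟨?_, ?_, ?_, tang (31433 / 4500) (22 / 43) ?_ ?_ ?_ ?_ fun s => ?_,
    tang (1976777 / 84500) (91 / 341) ?_ ?_ ?_ ?_ fun s => ?_,
    tang (4561508 / 190125) (375 / 518) ?_ ?_ ?_ ?_ fun s => ?_⟩ <;>
    norm_num [Ellipse.Q, E, F] <;> ring

lemma p3 : Poncelet E F (-791 / 5, 357 / 5) (-712 / 5, -476 / 5) (203, 595 / 13) := by
  refine ⟨?_, ?_, ?_, tang (31433 / 4500) (22 / 43) ?_ ?_ ?_ ?_ fun s => ?_,
    tang (1976777 / 84500) (91 / 341) ?_ ?_ ?_ ?_ fun s => ?_,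
    tang (4561508 / 190125) (375 / 518) ?_ ?_ ?_ ?_ fun s => ?_⟩ <;>
    norm_num [Ellipse.Q, E, F] <;> ring

theorem result : ∃ E F : Ellipse, (∀ P, F.Q P = 1 → E.Q P < 1) ∧ E.O ≠ F.O ∧
    (∀ v, ¬ (E.Axis v ∧ F.Axis v)) ∧ (∃ A B C, Poncelet E F A B C) ∧
    ∀ (P : ℝ × ℝ) (k : ℝ), ∃ A B C N r, Poncelet E F A B C ∧ EulerCircle A B C N r ∧
      d2 P N - r ^ 2 ≠ k := by
  refine ⟨E, F, ?_, ?_, ?_, ⟨_, _, _, p1⟩, ?_⟩
  · rintro ⟨x, y⟩ h
    simp only [Ellipse.Q, E, F] at h ⊢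
    have h1 : 1 - (1 / 44944 * (x - 0) ^ 2 + 2 * (-19 / 5348336) * (x - 0) * (y - 0) +
        2665 / 37438352 * (y - 0) ^ 2) = 229 / 60 * ((x - 19 / 119 * y) / 212 + 102 / 229) ^ 2 +
        26 / 25 * (y / 119) ^ 2 + 278 / 1145 := by linear_combination (-3 / 5 : ℝ) * h
    have h2 : 0 < 229 / 60 * ((x - 19 / 119 * y) / 212 + 102 / 229) ^ 2 +
        26 / 25 * (y / 119) ^ 2 + 278 / 1145 := by positivity
    linarith
  · intro h
    have := congrArg Prod.fst h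
    norm_num [E, F] at this
  · rintro ⟨x, y⟩ ⟨⟨hv, μ, h1, h2⟩, -, ν, h3, h4⟩
    simp only [E, F] at h1 h2 h3 h4
    have e1 : -19 / 5348336 * (y ^ 2 - x ^ 2) + (1 / 44944 - 2665 / 37438352) * (x * y) = 0 := by
      linear_combination y * h1 - x * h2
    have e2 : -323 / 11325888 * (y ^ 2 - x ^ 2) +
        (289 / 1617984 - 1648669 / 6738903360) * (x * y) = 0 := by
      linear_combination y * h3 - x * h4
    have e3 : x * y = 0 := by linarith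
    have e4 : y ^ 2 = x ^ 2 := by linarith
    rcases mul_eq_zero.1 e3 with rfl | rfl
    · exact hv (by simpa using e4)
    · exact hv (by simpa using e4.symm)
  · rintro ⟨x, y⟩ k
    by_contra hn
    push Not at hn
    have s1 := Real.sq_sqrt (show (0 : ℝ) ≤ 45780605 / 9248 by norm_num)
    have s2 := Real.sq_sqrt (show (0 : ℝ) ≤ 8388077902877 / 976820000 by norm_num)
    have s3 := Real.sq_sqrt (show (0 : ℝ) ≤ 3423515067601 / 382913440 by norm_num)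
    have h1 := hn _ _ _ (-561 / 8, -779 / 136) √(45780605 / 9248) p1
      ⟨by positivity, by rw [s1]; norm_num [d2], by rw [s1]; norm_num [d2],
        by rw [s1]; norm_num [d2]⟩
    have h2 := hn _ _ _ (-140031 / 2600, 124159 / 8840) √(8388077902877 / 976820000) p2
      ⟨by positivity, by rw [s2]; norm_num [d2], by rw [s2]; norm_num [d2],
        by rw [s2]; norm_num [d2]⟩
    have h3 := hn _ _ _ (-6039 / 104, 110501 / 12376) √(3423515067601 / 382913440) p3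
      ⟨by positivity, by rw [s3]; norm_num [d2], by rw [s3]; norm_num [d2],
        by rw [s3]; norm_num [d2]⟩
    rw [s1] at h1
    rw [s2] at h2
    rw [s3] at h3
    simp only [d2] at h1 h2 h3
    nlinarith

end Pool.Agent.Results.MP_d21a88_gt.Euler
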